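import Mathlib

/-!
# The field with eight elements
-/

set_option autoImplicit false

namespace Pool.Agent.J4.H64.SZ

/-- `a + b x + c x^2` with `x^3 = x + 1` -/
structure F8 where
  a : Bool
  b : Bool
  c : Bool
deriving DecidableEq

namespace F8

def equiv : F8 ≃ Bool × Bool × Bool where
  toFun x := (x.a, x.b, x.c)
  invFun x := ⟨x.1, x.2.1, x.2.2⟩
  left_inv _ := rfl
  right_inv _ := rfl

instance : Fintype F8 := Fintype.ofEquiv _ equiv.symm

instance : Zero F8 := ⟨⟨false, false, false⟩⟩
instance : One F8 := ⟨⟨true, false, false⟩⟩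
instance : Add F8 := ⟨fun x y => ⟨xor x.a y.a, xor x.b y.b, xor x.c y.c⟩⟩
instance : Neg F8 := ⟨fun x => x⟩
instance : Mul F8 := ⟨fun x y =>
  ⟨xor (x.a && y.a) (xor (x.b && y.c) (x.c && y.b)),
    xor (xor (x.a && y.b) (x.b && y.a)) (xor (xor (x.b && y.c) (x.c && y.b)) (x.c && y.c)),
    xor (xor (x.a && y.c) (x.b && y.b)) (xor (x.c && y.a) (x.c && y.c))⟩⟩
/-- the sixth power -/
instance : Inv F8 := ⟨fun x => (x * x) * ((x * x) * (x * x))⟩

theorem add_assoc' : ∀ x y z : F8, x + y + z = x + (y + z) := by decide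
theorem mul_assoc' : ∀ x y z : F8, x * y * z = x * (y * z) := by decide
theorem left_distrib' : ∀ x y z : F8, x * (y + z) = x * y + x * z := by decide
theorem right_distrib' : ∀ x y z : F8, (x + y) * z = x * z + y * z := by decide
theorem add_comm' : ∀ x y : F8, x + y = y + x := by decide
theorem mul_comm' : ∀ x y : F8, x * y = y * x := by decide
theorem zero_add' : ∀ x : F8, 0 + x = x := by decide
theorem add_zero' : ∀ x : F8, x + 0 = x := by decide
theorem one_mul' : ∀ x : F8, 1 * x = x := by decide
theorem mul_one' : ∀ x : F8, x * 1 = x := by decide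
theorem zero_mul' : ∀ x : F8, 0 * x = 0 := by decide
theorem mul_zero' : ∀ x : F8, x * 0 = 0 := by decide
theorem neg_add' : ∀ x : F8, -x + x = 0 := by decide
theorem mul_inv' : ∀ x : F8, x ≠ 0 → x * x⁻¹ = 1 := by decide
theorem inv_zero' : (0 : F8)⁻¹ = 0 := by decide

instance : CommRing F8 where
  add_assoc := add_assoc'
  zero_add := zero_add'
  add_zero := add_zero'
  nsmul := nsmulRec
  add_comm := add_comm'
  left_distrib := left_distrib'
  right_distrib := right_distrib'
  zero_mul := zero_mul'
  mul_zero := mul_zero'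
  mul_assoc := mul_assoc'
  one_mul := one_mul'
  mul_one := mul_one'
  neg_add_cancel := neg_add'
  zsmul := zsmulRec
  mul_comm := mul_comm'

instance : Field F8 where
  exists_pair_ne := ⟨0, 1, by decide⟩
  mul_inv_cancel := mul_inv'
  inv_zero := inv_zero'
  nnqsmul := _
  nnqsmul_def := fun _ _ => rfl
  qsmul := _
  qsmul_def := fun _ _ => rfl

theorem two_eq : (2 : F8) = 0 := by
  rw [← one_add_one_eq_two]
  decide

/-- the fourth power -/
def phi : F8 →+* F8 where
  toFun x := (x * x) * (x * x)
  map_one' := by decide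
  map_zero' := by decide
  map_add' := by decide
  map_mul' := by decide

end F8

/-- the element with the binary digits of `n` -/
def el (n : ℕ) : F8 := ⟨n.testBit 0, n.testBit 1, n.testBit 2⟩

end Pool.Agent.J4.H64.SZ
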