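import Pool.Agent.J4.H64.SZ.Gen
import Pool.Agent.J4.H64.SZ.F8

/-!
# Two elements of the Suzuki group of order 29120
-/

set_option autoImplicit false
set_option maxRecDepth 100000

namespace Pool.Agent.J4.H64.SZ

def a1 : Matrix (Fin 4) (Fin 4) F8 := !![el 0,el 0,el 0,el 4;el 0,el 0,el 5,el 0;el 0,el 2,el 0,el 7;el 7,el 0,el 4,el 1]

def a2 : Matrix (Fin 4) (Fin 4) F8 := !![el 1,el 0,el 6,el 4;el 0,el 1,el 0,el 6;el 3,el 0,el 0,el 7;el 7,el 3,el 4,el 1]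

def a4 : Matrix (Fin 4) (Fin 4) F8 := !![el 1,el 7,el 0,el 4;el 4,el 0,el 5,el 0;el 0,el 2,el 0,el 0;el 7,el 0,el 0,el 0]

def b1 : Matrix (Fin 4) (Fin 4) F8 := !![el 6,el 0,el 0,el 0;el 0,el 7,el 0,el 0;el 1,el 0,el 4,el 0;el 4,el 2,el 0,el 3]

def b2 : Matrix (Fin 4) (Fin 4) F8 := !![el 2,el 0,el 0,el 0;el 0,el 3,el 0,el 0;el 2,el 0,el 6,el 0;el 2,el 3,el 0,el 5]

def b4 : Matrix (Fin 4) (Fin 4) F8 := !![el 4,el 0,el 0,el 0;el 0,el 5,el 0,el 0;el 3,el 0,el 2,el 0;el 5,el 1,el 0,el 7]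

def b6 : Matrix (Fin 4) (Fin 4) F8 := !![el 3,el 0,el 0,el 0;el 0,el 4,el 0,el 0;el 2,el 0,el 7,el 0;el 4,el 1,el 0,el 6]

def c1 : Matrix (Fin 4) (Fin 4) F8 := !![el 6,el 3,el 0,el 7;el 5,el 0,el 2,el 0;el 1,el 0,el 0,el 2;el 4,el 2,el 6,el 3]

def c2 : Matrix (Fin 4) (Fin 4) F8 := !![el 7,el 4,el 2,el 6;el 1,el 4,el 0,el 2;el 5,el 7,el 7,el 1;el 5,el 1,el 5,el 3]

def c4 : Matrix (Fin 4) (Fin 4) F8 := !![el 5,el 4,el 3,el 4;el 2,el 0,el 3,el 3;el 2,el 1,el 7,el 2;el 4,el 3,el 3,el 1]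

def c8 : Matrix (Fin 4) (Fin 4) F8 := !![el 4,el 6,el 6,el 7;el 0,el 5,el 1,el 6;el 5,el 2,el 0,el 7;el 6,el 6,el 3,el 4]

def c12 : Matrix (Fin 4) (Fin 4) F8 := !![el 3,el 2,el 0,el 7;el 6,el 0,el 2,el 0;el 2,el 0,el 0,el 3;el 4,el 1,el 5,el 6]

theorem a1_a1 : a1 * a1 = a2 := by
  ext i j
  rw [Matrix.mul_apply, Fin.sum_univ_four]
  revert i j
  decide

theorem a2_a2 : a2 * a2 = a4 := by
  ext i j
  rw [Matrix.mul_apply, Fin.sum_univ_four]
  revert i j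
  decide

theorem a4_a1 : a4 * a1 = 1 := by
  ext i j
  rw [Matrix.mul_apply, Fin.sum_univ_four]
  revert i j
  decide

theorem b1_b1 : b1 * b1 = b2 := by
  ext i j
  rw [Matrix.mul_apply, Fin.sum_univ_four]
  revert i j
  decide

theorem b2_b2 : b2 * b2 = b4 := by
  ext i j
  rw [Matrix.mul_apply, Fin.sum_univ_four]
  revert i j
  decide

theorem b4_b2 : b4 * b2 = b6 := by
  ext i j
  rw [Matrix.mul_apply, Fin.sum_univ_four]
  revert i j
  decide

theorem b6_b1 : b6 * b1 = 1 := by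
  ext i j
  rw [Matrix.mul_apply, Fin.sum_univ_four]
  revert i j
  decide

theorem a1_b1 : a1 * b1 = c1 := by
  ext i j
  rw [Matrix.mul_apply, Fin.sum_univ_four]
  revert i j
  decide

theorem c1_c1 : c1 * c1 = c2 := by
  ext i j
  rw [Matrix.mul_apply, Fin.sum_univ_four]
  revert i j
  decide

theorem c2_c2 : c2 * c2 = c4 := by
  ext i j
  rw [Matrix.mul_apply, Fin.sum_univ_four]
  revert i j
  decide

theorem c4_c4 : c4 * c4 = c8 := by
  ext i j
  rw [Matrix.mul_apply, Fin.sum_univ_four]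
  revert i j
  decide

theorem c8_c4 : c8 * c4 = c12 := by
  ext i j
  rw [Matrix.mul_apply, Fin.sum_univ_four]
  revert i j
  decide

theorem c12_c1 : c12 * c1 = 1 := by
  ext i j
  rw [Matrix.mul_apply, Fin.sum_univ_four]
  revert i j
  decide

theorem P_a : P F8.phi a1 where
  l := by
    ext i j
    rw [row_form F8.two_eq]
    revert i j
    decide
  r := by
    ext i j
    rw [col_form F8.two_eq]
    revert i j
    decide
  m := by decide

theorem P_b : P F8.phi b1 where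
  l := by
    ext i j
    rw [row_form F8.two_eq]
    revert i j
    decide
  r := by
    ext i j
    rw [col_form F8.two_eq]
    revert i j
    decide
  m := by decide

end Pool.Agent.J4.H64.SZ
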