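import Mathlib

/-!
# Symplectic matrices with the Suzuki condition have no element of order three
-/

set_option autoImplicit false

namespace Pool.Agent.J4.H64.SZ

open Matrix

variable {F : Type} [Field F]

/-- the alternating form -/
def J (F : Type) [Field F] : Matrix (Fin 4) (Fin 4) F := !![0,0,0,1;0,0,1,0;0,1,0,0;1,0,0,0]

/-- two by two minors -/
def mn (g : Matrix (Fin 4) (Fin 4) F) (i j k l : Fin 4) : F := g i k * g j l - g i l * g j k

def s : Fin 4 → Fin 4 := ![0, 0, 1, 2]
def t : Fin 4 → Fin 4 := ![1, 2, 3, 3]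

/-- the Suzuki condition -/
structure P (φ : F →+* F) (g : Matrix (Fin 4) (Fin 4) F) : Prop where
  l : g * J F * gᵀ = J F
  r : gᵀ * J F * g = J F
  m : ∀ a b : Fin 4, mn g (s a) (t a) (s b) (t b) = φ (g a b)

theorem J_sq : J F * J F = 1 := by
  ext i j
  fin_cases i <;> fin_cases j <;>
    simp [J, Matrix.mul_apply, Fin.sum_univ_four]

theorem J_t : (J F)ᵀ = J F := by
  ext i j
  fin_cases i <;> fin_cases j <;> simp [J, Matrix.transpose_apply]

theorem row_form (h2 : (2 : F) = 0) (g : Matrix (Fin 4) (Fin 4) F) (i j : Fin 4) :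
    (g * J F * gᵀ) i j = mn g i j 0 3 + mn g i j 1 2 := by
  simp only [Matrix.mul_apply, Fin.sum_univ_four, J, Matrix.transpose_apply, Matrix.of_apply,
    Matrix.cons_val', Matrix.cons_val_zero, Matrix.cons_val_one, Matrix.cons_val,
    Matrix.cons_val_fin_one, mn]
  linear_combination (g i 3 * g j 0 + g i 2 * g j 1) * h2

theorem col_form (h2 : (2 : F) = 0) (g : Matrix (Fin 4) (Fin 4) F) (i j : Fin 4) :
    (gᵀ * J F * g) i j = mn g 0 3 i j + mn g 1 2 i j := by
  simp only [Matrix.mul_apply, Fin.sum_univ_four, J, Matrix.transpose_apply, Matrix.of_apply,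
    Matrix.cons_val', Matrix.cons_val_zero, Matrix.cons_val_one, Matrix.cons_val,
    Matrix.cons_val_fin_one, mn]
  linear_combination (g 3 i * g 0 j + g 2 i * g 1 j) * h2

theorem cauchy_binet (g h : Matrix (Fin 4) (Fin 4) F) (i j k l : Fin 4) :
    mn (g * h) i j k l = mn g i j 0 1 * mn h 0 1 k l + mn g i j 0 2 * mn h 0 2 k l +
      mn g i j 1 3 * mn h 1 3 k l + mn g i j 2 3 * mn h 2 3 k l +
      mn g i j 0 3 * mn h 0 3 k l + mn g i j 1 2 * mn h 1 2 k l := by
  simp only [mn, Matrix.mul_apply, Fin.sum_univ_four]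
  ring

theorem J_zero (a : Fin 4) : J F (s a) (t a) = 0 := by
  fin_cases a <;> simp [J, s, t]

theorem P.mul (h2 : (2 : F) = 0) {φ : F →+* F} {g h : Matrix (Fin 4) (Fin 4) F} (hg : P φ g)
    (hh : P φ h) : P φ (g * h) where
  l := by
    rw [Matrix.transpose_mul, show g * h * J F * (hᵀ * gᵀ) = g * (h * J F * hᵀ) * gᵀ by
      simp only [Matrix.mul_assoc], hh.l, hg.l]
  r := by
    rw [Matrix.transpose_mul, show hᵀ * gᵀ * J F * (g * h) = hᵀ * (gᵀ * J F * g) * h by
      simp only [Matrix.mul_assoc], hg.r, hh.r]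
  m := by
    intro a b
    have e1 := congrFun (congrFun hg.l (s a)) (t a)
    rw [row_form h2, J_zero] at e1
    have e2 := congrFun (congrFun hh.r (s b)) (t b)
    rw [col_form h2, J_zero] at e2
    have f0 : mn g (s a) (t a) 0 1 = φ (g a 0) := hg.m a 0
    have f1 : mn g (s a) (t a) 0 2 = φ (g a 1) := hg.m a 1
    have f2 : mn g (s a) (t a) 1 3 = φ (g a 2) := hg.m a 2
    have f3 : mn g (s a) (t a) 2 3 = φ (g a 3) := hg.m a 3
    have k0 : mn h 0 1 (s b) (t b) = φ (h 0 b) := hh.m 0 b
    have k1 : mn h 0 2 (s b) (t b) = φ (h 1 b) := hh.m 1 b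
    have k2 : mn h 1 3 (s b) (t b) = φ (h 2 b) := hh.m 2 b
    have k3 : mn h 2 3 (s b) (t b) = φ (h 3 b) := hh.m 3 b
    rw [cauchy_binet, Matrix.mul_apply, Fin.sum_univ_four]
    simp only [map_add, map_mul]
    rw [← f0, ← f1, ← f2, ← f3, ← k0, ← k1, ← k2, ← k3]
    linear_combination (mn g (s a) (t a) 0 3) * e2 + (mn h 1 2 (s b) (t b)) * e1 -
      (mn g (s a) (t a) 0 3 * mn h 1 2 (s b) (t b)) * h2

theorem P.one (φ : F →+* F) : P φ (1 : Matrix (Fin 4) (Fin 4) F) where
  l := by simp
  r := by simp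
  m := by
    intro a b
    fin_cases a <;> fin_cases b <;> simp [mn, s, t, Matrix.one_apply]

/-- the second elementary symmetric function -/
def e2 (g : Matrix (Fin 4) (Fin 4) F) : F :=
  mn g 0 1 0 1 + mn g 0 2 0 2 + mn g 1 3 1 3 + mn g 2 3 2 3 + mn g 0 3 0 3 + mn g 1 2 1 2

theorem P.e2_eq (h2 : (2 : F) = 0) {φ : F →+* F} {g : Matrix (Fin 4) (Fin 4) F} (hg : P φ g) :
    e2 g = φ g.trace := by
  have f0 := hg.m 0 0
  have f1 := hg.m 1 1
  have f2 := hg.m 2 2
  have f3 := hg.m 3 3
  simp only [s, t, Matrix.cons_val_zero, Matrix.cons_val_one, Matrix.cons_val] at f0 f1 f2 f3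
  have a1 := congrFun (congrFun hg.l 0) 3
  rw [row_form h2] at a1
  have a3 := congrFun (congrFun hg.r 1) 2
  rw [col_form h2] at a3
  simp only [J, Matrix.of_apply, Matrix.cons_val', Matrix.cons_val_zero, Matrix.cons_val_one,
    Matrix.cons_val, Matrix.cons_val_fin_one] at a1 a3
  rw [e2, f0, f1, f2, f3, Matrix.trace, Fin.sum_univ_four]
  simp only [Matrix.diag_apply, map_add]
  linear_combination a1 - a3 + (mn g 1 2 1 2) * h2

/-- the third elementary symmetric function -/
theorem charpoly_eq (g : Matrix (Fin 4) (Fin 4) F) : g.charpoly = Polynomial.X ^ 4 -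
    Polynomial.C g.trace * Polynomial.X ^ 3 + Polynomial.C (e2 g) * Polynomial.X ^ 2 -
    Polynomial.C (adjugate g).trace * Polynomial.X + Polynomial.C g.det := by
  have h1 : (adjugate g).trace = (g.submatrix ![1,2,3] ![1,2,3]).det +
      (g.submatrix ![0,2,3] ![0,2,3]).det + (g.submatrix ![0,1,3] ![0,1,3]).det +
      (g.submatrix ![0,1,2] ![0,1,2]).det := by
    rw [Matrix.trace, Fin.sum_univ_four]
    simp only [Matrix.diag_apply, Matrix.adjugate_fin_succ_eq_det_submatrix, Matrix.det_fin_three,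
      Matrix.submatrix_apply]
    simp [Fin.succAbove, Fin.lt_def]
    ring
  rw [h1]
  simp only [Matrix.charpoly, Matrix.det_succ_row_zero (n := 3), Fin.sum_univ_four,
    Matrix.det_fin_three, Matrix.submatrix_apply, Matrix.charmatrix_apply, Matrix.trace,
    Matrix.diag_apply, e2, mn]
  simp [Fin.succAbove, Fin.lt_def]
  ring

/-- **Such matrices of order three do not exist.** -/
theorem P.order_three (h2 : (2 : F) = 0) {φ : F →+* F} {g : Matrix (Fin 4) (Fin 4) F}
    (hg : P φ g) (h3 : g ^ 3 = 1) : g = 1 := by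
  have hinv : g * (J F * gᵀ * J F) = 1 := by
    rw [← Matrix.mul_assoc, ← Matrix.mul_assoc, hg.l, J_sq]
  have hdet : g.det = 1 := by
    have h := congrArg Matrix.det hg.l
    rw [Matrix.det_mul, Matrix.det_mul, Matrix.det_transpose] at h
    have hJ : (J F).det * (J F).det = 1 := by rw [← Matrix.det_mul, J_sq, Matrix.det_one]
    have h4 : (g.det - 1) * (g.det - 1) = 0 := by
      linear_combination (J F).det * h - (g.det * g.det - 1) * hJ + (1 - g.det) * h2
    have h5 := mul_self_eq_zero.1 h4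
    linear_combination h5
  have hadj : adjugate g = J F * gᵀ * J F := by
    have h : adjugate g * (g * (J F * gᵀ * J F)) = J F * gᵀ * J F := by
      rw [← Matrix.mul_assoc, Matrix.adjugate_mul, hdet, one_smul, Matrix.one_mul]
    rw [hinv, Matrix.mul_one] at h
    exact h
  have hta : (adjugate g).trace = g.trace := by
    rw [hadj, Matrix.trace_mul_comm, ← Matrix.mul_assoc, J_sq, Matrix.one_mul,
      Matrix.trace_transpose]
  have hsq : g * g = adjugate g := by
    have h : g * g * (g * (J F * gᵀ * J F)) = J F * gᵀ * J F := by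
      rw [← Matrix.mul_assoc, show g * g * g = g ^ 3 by rw [pow_succ, pow_two], h3, Matrix.one_mul]
    rw [hinv, Matrix.mul_one] at h
    rw [h, hadj]
  have htr : g.trace * g.trace = g.trace := by
    have h := congrArg Matrix.trace hsq
    rw [hta] at h
    have h6 : g.trace * g.trace = (g * g).trace := by
      simp only [Matrix.trace, Matrix.diag_apply, Matrix.mul_apply, Fin.sum_univ_four]
      linear_combination (g 0 0 * g 1 1 + g 0 0 * g 2 2 + g 0 0 * g 3 3 + g 1 1 * g 2 2 +
        g 1 1 * g 3 3 + g 2 2 * g 3 3 - g 0 1 * g 1 0 - g 0 2 * g 2 0 - g 0 3 * g 3 0 -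
        g 1 2 * g 2 1 - g 1 3 * g 3 1 - g 2 3 * g 3 2) * h2
    rw [h6, h]
  have hch := Matrix.aeval_self_charpoly g
  rw [charpoly_eq, hdet, hta, hg.e2_eq h2] at hch
  simp only [map_add, map_sub, map_mul, map_pow, Polynomial.aeval_X, Polynomial.aeval_C,
    map_one, Algebra.algebraMap_eq_smul_one, smul_mul_assoc, one_mul] at hch
  rcases mul_eq_zero.1 (show g.trace * (g.trace - 1) = 0 by linear_combination htr) with h0 | h0
  · rw [h0, map_zero] at hch
    simp only [zero_smul, sub_zero, add_zero, h3, pow_succ g 3] at hch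
    rw [one_mul] at hch
    have h4 : (1 : Matrix (Fin 4) (Fin 4) F) + 1 = 0 := by
      rw [one_add_one_eq_two, show (2 : Matrix (Fin 4) (Fin 4) F) = (2 : F) • 1 by
        rw [two_smul, one_add_one_eq_two], h2, zero_smul]
    calc g = (g + 1) - (1 + 1) + 1 := by abel
      _ = 1 := by rw [hch, h4, sub_zero, zero_add]
  · have h1 : g.trace = 1 := by linear_combination h0
    rw [h1, map_one] at hch
    simp only [one_smul, h3, pow_succ g 3, one_mul] at hch
    have hz : g ^ 2 = 0 := by
      rw [← hch]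
      abel
    have : (1 : Matrix (Fin 4) (Fin 4) F) = 0 := by
      rw [← h3, pow_succ, hz, Matrix.zero_mul]
    exact absurd this one_ne_zero

end Pool.Agent.J4.H64.SZ
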